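import Pool.Agent.H70.TIE.Stmts

/-!
# Project TIE, module VR: lower bound for the local variance
-/

set_option autoImplicit false

namespace TIE
open Finset

theorem vr_ee_add (x y : ℝ) : ee (x + y) = ee x * ee y := by
  rw [ee, ee, ee, ← Complex.exp_add]
  congr 1
  push_cast
  ring

theorem vr_ee_norm (x : ℝ) : ‖ee x‖ = 1 := by
  have h : (2 * Real.pi * Complex.I * x : ℂ) = ((2 * Real.pi * x : ℝ) : ℂ) * Complex.I := by
    push_cast
    ring
  rw [ee, h, Complex.norm_exp_ofReal_mul_I]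

theorem vr_ee_conj (x : ℝ) : (starRingEnd ℂ) (ee x) = ee (-x) := by
  rw [ee, ee, ← Complex.exp_conj]
  congr 1
  have h2 : (starRingEnd ℂ) (2 : ℂ) = 2 := map_ofNat _ 2
  rw [map_mul, map_mul, map_mul, Complex.conj_I, Complex.conj_ofReal, Complex.conj_ofReal, h2]
  push_cast
  ring

theorem vr_ee_zero : ee 0 = 1 := by
  rw [ee]
  simp

theorem vr_card (r : ℕ) : (RR r).card = r.totient := by
  rw [RR, Nat.totient_eq_card_coprime]
  congr 1
  ext b
  simp only [mem_filter, mem_range]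
  rw [Nat.coprime_comm]

theorem vr_cr_zero (r : ℕ) : cr r 0 = (r.totient : ℂ) := by
  rw [cr]
  have h : ∀ s ∈ RR r, ee (s * ((0 : ℤ) : ℝ) / r) = 1 := by
    intro s _
    rw [Int.cast_zero, mul_zero, zero_div, vr_ee_zero]
  rw [sum_congr rfl h, sum_const, vr_card]
  simp

theorem vr_cr_le (hR : S_RAM) (r : ℕ) (k : ℤ) (hr : 1 ≤ r) (hk : k ≠ 0) :
    ‖cr r k‖ ≤ ((k.natAbs : ℕ) : ℝ) ^ 2 := by
  rw [hR r k hr]
  have h1 : ∀ d ∈ r.divisors, ‖(if (d : ℤ) ∣ k then
      ((ArithmeticFunction.moebius (r / d) : ℤ) : ℂ) * d else 0)‖ ≤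
      if (d : ℤ) ∣ k then (k.natAbs : ℝ) else 0 := by
    intro d _
    split_ifs with h
    · rw [norm_mul, Complex.norm_natCast, Complex.norm_intCast]
      have h2 : d ∣ k.natAbs := Int.natCast_dvd.1 h
      have h3 : d ≤ k.natAbs := Nat.le_of_dvd (Int.natAbs_pos.2 hk) h2
      have h4 : |((ArithmeticFunction.moebius (r / d) : ℤ) : ℝ)| ≤ 1 := by
        have h5 := ArithmeticFunction.abs_moebius_le_one (n := r / d)
        exact_mod_cast h5
      calc |((ArithmeticFunction.moebius (r / d) : ℤ) : ℝ)| * (d : ℝ) ≤ 1 * (k.natAbs : ℝ) := by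
            apply mul_le_mul h4 (by exact_mod_cast h3) (Nat.cast_nonneg _) zero_le_one
        _ = (k.natAbs : ℝ) := one_mul _
    · rw [norm_zero]
  refine (norm_sum_le _ _).trans ((sum_le_sum h1).trans ?_)
  rw [← sum_filter, sum_const, nsmul_eq_mul]
  have h6 : (r.divisors.filter fun d : ℕ => (d : ℤ) ∣ k).card ≤ k.natAbs := by
    have h7 : (r.divisors.filter fun d : ℕ => (d : ℤ) ∣ k) ⊆ k.natAbs.divisors := by
      intro d hd
      rw [mem_filter] at hd
      exact Nat.mem_divisors.2 ⟨Int.natCast_dvd.1 hd.2, (Int.natAbs_pos.2 hk).ne'⟩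
    exact (card_le_card h7).trans (Nat.card_divisors_le_self _)
  rw [sq]
  exact mul_le_mul_of_nonneg_right (by exact_mod_cast h6) (Nat.cast_nonneg _)

theorem vr_expand (r h : ℕ) (t : ℝ) :
    ((∑ s ∈ RR r, ‖Dh h (s / r + t)‖ ^ 2 : ℝ) : ℂ) =
      ∑ j ∈ Icc 1 h, ∑ j' ∈ Icc 1 h, ee (((j : ℤ) - j' : ℤ) * t) * cr r ((j : ℤ) - j') := by
  have h1 : ∀ s ∈ RR r, ((‖Dh h (s / r + t)‖ ^ 2 : ℝ) : ℂ) =
      ∑ j ∈ Icc 1 h, ∑ j' ∈ Icc 1 h, ee (((j : ℤ) - j' : ℤ) * t) *
        ee (s * (((j : ℤ) - j' : ℤ) : ℝ) / r) := by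
    intro s _
    rw [Complex.ofReal_pow, ← Complex.mul_conj', Dh, map_sum, sum_mul_sum]
    refine sum_congr rfl fun j _ => sum_congr rfl fun j' _ => ?_
    rw [vr_ee_conj, ← vr_ee_add, ← vr_ee_add]
    congr 1
    push_cast
    ring
  rw [Complex.ofReal_sum, sum_congr rfl h1, sum_comm]
  refine sum_congr rfl fun j _ => ?_
  rw [sum_comm]
  refine sum_congr rfl fun j' _ => ?_
  rw [cr, mul_sum]

theorem VR (hR : S_RAM) : S_VR := by
  intro r h t hr hh hφ
  set S : ℝ := ∑ s ∈ RR r, ‖Dh h (s / r + t)‖ ^ 2 with hS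
  have h1 : ‖(S : ℂ) - ((h * r.totient : ℝ) : ℂ)‖ ≤ (h : ℝ) ^ 4 := by
    have h2 : ((h * r.totient : ℝ) : ℂ) =
        ∑ j ∈ Icc 1 h, ∑ j' ∈ Icc 1 h, if j = j' then (r.totient : ℂ) else 0 := by
      have h3 : ∀ j ∈ Icc 1 h, ∑ j' ∈ Icc 1 h, (if j = j' then (r.totient : ℂ) else 0) =
          r.totient := by
        intro j hj
        rw [sum_ite_eq, if_pos hj]
      rw [sum_congr rfl h3, sum_const, Nat.card_Icc]
      simp
    rw [hS, vr_expand, h2, ← sum_sub_distrib]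
    have h4 : ∀ j ∈ Icc 1 h, ‖(∑ j' ∈ Icc 1 h, ee (((j : ℤ) - j' : ℤ) * t) *
        cr r ((j : ℤ) - j')) - ∑ j' ∈ Icc 1 h, (if j = j' then (r.totient : ℂ) else 0)‖ ≤
        (h : ℝ) ^ 3 := by
      intro j hj
      rw [← sum_sub_distrib]
      have h5 : ∀ j' ∈ Icc 1 h, ‖ee (((j : ℤ) - j' : ℤ) * t) * cr r ((j : ℤ) - j') -
          (if j = j' then (r.totient : ℂ) else 0)‖ ≤ (h : ℝ) ^ 2 := by
        intro j' hj'
        rw [mem_Icc] at hj hj'
        split_ifs with he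
        · subst he
          rw [sub_self, vr_cr_zero, Int.cast_zero, zero_mul, vr_ee_zero, one_mul, sub_self,
            norm_zero]
          positivity
        · rw [sub_zero, norm_mul, vr_ee_norm, one_mul]
          have h6 : (j : ℤ) - j' ≠ 0 := by
            intro h7
            apply he
            omega
          refine (vr_cr_le hR r _ hr h6).trans ?_
          have h7 : ((j : ℤ) - j').natAbs ≤ h := by omega
          have h8 : ((((j : ℤ) - j').natAbs : ℕ) : ℝ) ≤ h := by exact_mod_cast h7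
          exact pow_le_pow_left₀ (Nat.cast_nonneg _) h8 2
      refine (norm_sum_le _ _).trans ((sum_le_sum h5).trans ?_)
      rw [sum_const, Nat.card_Icc, nsmul_eq_mul, Nat.add_sub_cancel]
      exact le_of_eq (by ring)
    refine (norm_sum_le _ _).trans ((sum_le_sum h4).trans ?_)
    rw [sum_const, Nat.card_Icc, nsmul_eq_mul, Nat.add_sub_cancel]
    exact le_of_eq (by ring)
  rw [← Complex.ofReal_sub, Complex.norm_real, Real.norm_eq_abs] at h1
  have h9 := (abs_le.1 h1).1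
  have h10 : (2 : ℝ) * (h : ℝ) ^ 3 ≤ r.totient := by exact_mod_cast hφ
  have h11 : (0 : ℝ) ≤ h := Nat.cast_nonneg _
  have h12 : (h : ℝ) * (2 * (h : ℝ) ^ 3) ≤ h * r.totient := mul_le_mul_of_nonneg_left h10 h11
  have h13 : (h : ℝ) ^ 4 = h * (h : ℝ) ^ 3 := by ring
  linarith

end TIE
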